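import Mathlib
import Pool.Graph.R_pool_sql_team_ae5b0c61.H62.HaarFlow

set_option autoImplicit false

namespace Pool.Agent.Results.MP_4045d2_lc.CompactManifolds

open MeasureTheory Set Filter Topology

/-- `g` is a homeomorphism of `X` that is isotopic to the identity: a path of homeomorphisms,
continuous in the compact-open topology, joins the identity to `g`. -/
def IsotopicToId {X : Type} [TopologicalSpace X] (g : C(X, X)) : Prop :=
  ∃ γ : unitInterval → C(X, X), Continuous γ ∧ γ 0 = ContinuousMap.id X ∧ γ 1 = g ∧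
    ∀ t, Function.Bijective (γ t)

/-- `G` consists of homeomorphisms of the compact space `X` and contains all those isotopic to the
identity. -/
def Admissible {X : Type} [TopologicalSpace X] (G : Set C(X, X)) : Prop :=
  (∀ g ∈ G, Function.Bijective g) ∧ ∀ g : C(X, X), IsotopicToId g → g ∈ G

/-- All two-sided translates of `B` by elements of `G` are `μ`-null. -/
def TranslatesNull {X : Type} [TopologicalSpace X] {G : Set C(X, X)} [MeasurableSpace G]
    (B : Set G) (μ : MeasureTheory.Measure G) : Prop :=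
  ∀ g h : G, μ {x : G | ∃ b ∈ B,
    (x : C(X, X)) = (g : C(X, X)).comp ((b : C(X, X)).comp (h : C(X, X)))} = 0

/-- The set `G` of self-maps (with the compact-open topology) is the union of a meagre set and a
Haar null set: a set inside a Borel set all of whose two-sided translates are null for one Borel
probability measure. -/
def MeagrePlusHaarNull {X : Type} [TopologicalSpace X] (G : Set C(X, X)) : Prop :=
  ∀ m : MeasurableSpace G, m = borel G →
    ∃ M N : Set G, M ∪ N = Set.univ ∧ IsMeagre M ∧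
      ∃ B : Set G, N ⊆ B ∧ MeasurableSet B ∧
      ∃ μ : MeasureTheory.Measure G, MeasureTheory.IsProbabilityMeasure μ ∧ TranslatesNull B μ

/-- `X` has an open subset homeomorphic to `ℝⁿ` for some `n ≥ 1`. -/
def HasEuclideanPiece (X : Type) [TopologicalSpace X] : Prop :=
  ∃ n : ℕ, 0 < n ∧ ∃ e : EuclideanSpace ℝ (Fin n) → X, IsOpenEmbedding e

/-- The `n`-sphere. -/
abbrev Sph (n : ℕ) : Type := Metric.sphere (0 : EuclideanSpace ℝ (Fin (n + 1))) 1

/-- The homeomorphisms of the `n`-sphere that are homotopic to the identity. -/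
def SphereGroup (n : ℕ) : Set C(Sph n, Sph n) :=
  {f | Function.Bijective f ∧ ContinuousMap.Homotopic f (ContinuousMap.id _)}

variable {n : ℕ}

/-- The radial flow, supported in the unit ball. -/
noncomputable def psi (p : ℝ × EuclideanSpace ℝ (Fin n)) : EuclideanSpace ℝ (Fin n) :=
  (Real.exp p.1 / (1 - min ‖p.2‖ 1 + min ‖p.2‖ 1 * Real.exp p.1)) • p.2

theorem den_pos (r t : ℝ) (h0 : 0 ≤ r) (h1 : r ≤ 1) : 0 < 1 - r + r * Real.exp t := by
  rcases h0.eq_or_lt with rfl | h0
  · simp
  · have := mul_pos h0 (Real.exp_pos t)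
    linarith

theorem psi_cont : Continuous (psi (n := n)) := by
  unfold psi
  have h1 : Continuous fun p : ℝ × EuclideanSpace ℝ (Fin n) => Real.exp p.1 := by fun_prop
  have h2 : Continuous fun p : ℝ × EuclideanSpace ℝ (Fin n) =>
      1 - min ‖p.2‖ 1 + min ‖p.2‖ 1 * Real.exp p.1 := by fun_prop
  refine Continuous.smul (h1.div h2 fun p => ?_) continuous_snd
  exact (den_pos _ _ (le_min (norm_nonneg _) zero_le_one) (min_le_right _ _)).ne'

theorem psi_of_one_le (t : ℝ) (x : EuclideanSpace ℝ (Fin n)) (h : 1 ≤ ‖x‖) : psi (t, x) = x := by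
  simp [psi, min_eq_right h]

theorem psi_add (s t : ℝ) (x : EuclideanSpace ℝ (Fin n)) : psi (s + t, x) = psi (s, psi (t, x)) := by
  rcases le_or_gt 1 ‖x‖ with h | h
  · rw [psi_of_one_le _ _ h, psi_of_one_le _ _ h, psi_of_one_le _ _ h]
  · have hd := den_pos ‖x‖ t (norm_nonneg _) h.le
    have hd2 := den_pos ‖x‖ (s + t) (norm_nonneg _) h.le
    have hn : ‖psi (t, x)‖ = ‖x‖ * Real.exp t / (1 - ‖x‖ + ‖x‖ * Real.exp t) := by
      simp only [psi, norm_smul, min_eq_left h.le, Real.norm_eq_abs]
      rw [abs_of_pos (div_pos (Real.exp_pos _) hd)]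
      ring
    have hn1 : ‖psi (t, x)‖ ≤ 1 := by
      rw [hn, div_le_one hd]; linarith
    have hx : psi (t, x) = (Real.exp t / (1 - ‖x‖ + ‖x‖ * Real.exp t)) • x := by
      simp only [psi, min_eq_left h.le]
    have e0 : ∀ y : EuclideanSpace ℝ (Fin n), ‖y‖ ≤ 1 →
        psi (s, y) = (Real.exp s / (1 - ‖y‖ + ‖y‖ * Real.exp s)) • y := fun y hy => by
      simp only [psi, min_eq_left hy]
    have e1 := e0 _ hn1
    have e2 : 1 - ‖psi (t, x)‖ + ‖psi (t, x)‖ * Real.exp s =
        (1 - ‖x‖ + ‖x‖ * Real.exp (s + t)) / (1 - ‖x‖ + ‖x‖ * Real.exp t) := by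
      rw [hn, Real.exp_add]
      field_simp
      ring
    rw [e1, e2, hx, smul_smul]
    simp only [psi, min_eq_left h.le]
    congr 1
    rw [Real.exp_add] at hd2 ⊢
    field_simp

theorem psi_zero (x : EuclideanSpace ℝ (Fin n)) : psi (0, x) = x := by
  simp [psi]

variable {X : Type} [TopologicalSpace X] [T2Space X]

/-- The flow transported to `X` by an open embedding. -/
noncomputable def Psi (e : EuclideanSpace ℝ (Fin n) → X) (p : ℝ × X) : X :=
  open Classical in
  if h : ∃ v, e v = p.2 then e (psi (p.1, h.choose)) else p.2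

theorem Psi_e {e : EuclideanSpace ℝ (Fin n) → X} (he : IsOpenEmbedding e) (t : ℝ)
    (v : EuclideanSpace ℝ (Fin n)) : Psi e (t, e v) = e (psi (t, v)) := by
  have h : ∃ w, e w = (t, e v).2 := ⟨v, rfl⟩
  unfold Psi
  rw [dif_pos h, he.injective h.choose_spec]

theorem Psi_not {e : EuclideanSpace ℝ (Fin n) → X} (t : ℝ) (x : X) (h : x ∉ range e) :
    Psi e (t, x) = x := by
  have : ¬ ∃ w, e w = (t, x).2 := h
  unfold Psi
  rw [dif_neg this]

theorem Psi_cont {e : EuclideanSpace ℝ (Fin n) → X} (he : IsOpenEmbedding e) :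
    Continuous (Psi e) := by
  rw [continuous_iff_continuousAt]
  rintro ⟨t, x⟩
  by_cases hx : x ∈ range e
  · obtain ⟨v, rfl⟩ := hx
    have h1 : IsOpenEmbedding (Prod.map (id : ℝ → ℝ) e) := IsOpenEmbedding.id.prodMap he
    have h2 : ContinuousAt (Psi e ∘ Prod.map (id : ℝ → ℝ) e) (t, v) := by
      have : Psi e ∘ Prod.map (id : ℝ → ℝ) e = e ∘ psi := by
        funext ⟨s, w⟩
        exact Psi_e he s w
      rw [this]
      exact (he.continuous.comp psi_cont).continuousAt
    exact (h1.continuousAt_iff (g := Psi e) (x := (t, v))).1 h2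
  · have hK : IsClosed (e '' Metric.closedBall 0 1) :=
      ((isCompact_closedBall 0 1).image he.continuous).isClosed
    have hxK : x ∉ e '' Metric.closedBall 0 1 := fun ⟨v, _, h⟩ => hx ⟨v, h⟩
    have hnb : (univ : Set ℝ) ×ˢ (e '' Metric.closedBall 0 1)ᶜ ∈ 𝓝 (t, x) :=
      (isOpen_univ.prod hK.isOpen_compl).mem_nhds ⟨trivial, hxK⟩
    have heq : Psi e =ᶠ[𝓝 (t, x)] Prod.snd := by
      filter_upwards [hnb] with ⟨s, y⟩ hy
      by_cases hy2 : y ∈ range e
      · obtain ⟨v, rfl⟩ := hy2
        rw [Psi_e he, psi_of_one_le]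
        by_contra hv
        push Not at hv
        exact hy.2 ⟨v, by simpa using hv.le, rfl⟩
      · exact Psi_not s y hy2
    exact continuous_snd.continuousAt.congr heq.symm

theorem Psi_add {e : EuclideanSpace ℝ (Fin n) → X} (he : IsOpenEmbedding e) (s t : ℝ) (x : X) :
    Psi e (s + t, x) = Psi e (s, Psi e (t, x)) := by
  by_cases hx : x ∈ range e
  · obtain ⟨v, rfl⟩ := hx
    rw [Psi_e he, Psi_e he, Psi_e he, psi_add]
  · rw [Psi_not _ _ hx, Psi_not _ _ hx, Psi_not _ _ hx]

theorem Psi_zero {e : EuclideanSpace ℝ (Fin n) → X} (he : IsOpenEmbedding e) (x : X) :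
    Psi e (0, x) = x := by
  by_cases hx : x ∈ range e
  · obtain ⟨v, rfl⟩ := hx
    rw [Psi_e he, psi_zero]
  · rw [Psi_not _ _ hx]

theorem general {X : Type} [TopologicalSpace X] [CompactSpace X]
    [TopologicalSpace.MetrizableSpace X] (hn : 0 < n) (e : EuclideanSpace ℝ (Fin n) → X)
    (he : IsOpenEmbedding e) (G : Set C(X, X)) (hG : ∀ g ∈ G, Function.Bijective g)
    (hiso : ∀ g : C(X, X), IsotopicToId g → g ∈ G) : MeagrePlusHaarNull G := by
  intro m hm
  have : BorelSpace G := ⟨hm⟩
  let Φ : C(ℝ × X, X) := ⟨Psi e, Psi_cont he⟩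
  have ha : ∀ s t x, Φ.curry (s + t) x = Φ.curry s (Φ.curry t x) := fun s t x => Psi_add he s t x
  have h0 : ∀ x, Φ.curry 0 x = x := fun x => Psi_zero he x
  have hbij : ∀ t, Function.Bijective (Φ.curry t) := fun t =>
    Function.bijective_iff_has_inverse.mpr ⟨Φ.curry (-t), fun x => by rw [← ha]; simp [h0],
      fun x => by rw [← ha]; simp [h0]⟩
  have hmem : ∀ t, Φ.curry t ∈ G := fun t => by
    refine hiso _ ⟨fun s => Φ.curry (s * t), ?_, ?_, ?_, fun s => hbij _⟩
    · exact Φ.curry.continuous.comp (by fun_prop)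
    · ext x; simpa using h0 x
    · simp
  let v : EuclideanSpace ℝ (Fin n) := EuclideanSpace.single ⟨0, hn⟩ (1 / 2 : ℝ)
  have hv : ‖v‖ = 1 / 2 := by simp [v]
  have hy : ∀ s ∈ Icc (1 : ℝ) 2, Φ.curry s (e v) ≠ e v := by
    intro s hs hcon
    have h4 : Psi e (s, e v) = e v := hcon
    rw [Psi_e he] at h4
    have h5 := he.injective h4
    have h6 := congrArg norm h5
    have hd := den_pos (1 / 2) s (by norm_num) (by norm_num)
    simp only [psi, norm_smul, hv, Real.norm_eq_abs] at h6
    rw [min_eq_left (by norm_num), abs_of_pos (div_pos (Real.exp_pos _) hd)] at h6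
    have h7 : Real.exp s / (1 - 1 / 2 + 1 / 2 * Real.exp s) = 1 := by linarith
    rw [div_eq_one_iff_eq hd.ne'] at h7
    have h8 : Real.exp s = 1 := by linarith
    rw [Real.exp_eq_one_iff] at h8
    linarith [hs.1]
  obtain ⟨B, h1, h2, h3⟩ := Pool.Agent.H62.HaarFlow.main G hG Φ.curry Φ.curry.continuous ha hmem
    (e v) hy
  exact ⟨Bᶜ, B, Set.compl_union_self B, h1, B, subset_rfl, h2, h3⟩

theorem manifold {X : Type} [TopologicalSpace X] [Nonempty X] {n : ℕ} (hn : 0 < n)
    [ChartedSpace (EuclideanSpace ℝ (Fin n)) X] : HasEuclideanPiece X := by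
  obtain ⟨x⟩ := ‹Nonempty X›
  let c := chartAt (EuclideanSpace ℝ (Fin n)) x
  obtain ⟨r, hr, hsub⟩ := Metric.isOpen_iff.1 c.open_target (c x)
    (c.map_source (mem_chart_source _ x))
  let b := OpenPartialHomeomorph.univBall (c x) r
  have ht : b.target = Metric.ball (c x) r := OpenPartialHomeomorph.univBall_target _ hr
  let f := b.trans c.symm
  have hf : f.source = univ := by
    rw [OpenPartialHomeomorph.trans_source]
    refine eq_univ_of_forall fun y => ⟨by simp [b], ?_⟩
    rw [OpenPartialHomeomorph.symm_source]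
    exact hsub (ht ▸ b.map_source (by simp [b]))
  exact ⟨n, hn, f, f.isOpenEmbedding hf⟩

theorem general' {X : Type} [TopologicalSpace X] [CompactSpace X]
    [TopologicalSpace.MetrizableSpace X] (h : HasEuclideanPiece X) (G : Set C(X, X))
    (hG : Admissible G) : MeagrePlusHaarNull G := by
  obtain ⟨n, hn, e, he⟩ := h
  exact general hn e he G hG.1 hG.2

/-- (1) Let `X` be a compact metrizable space with an open subset homeomorphic to `ℝⁿ`, `n ≥ 1`
(e.g. any compact manifold of positive dimension, with or without boundary). Every set `G` of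
homeomorphisms of `X` that contains all homeomorphisms isotopic to the identity is the union of a
meagre set and a Haar null set. (2) Every nonempty topological `n`-manifold, `n ≥ 1`, given by
charts, has such an open subset. (3) Spheres of every dimension `n ≥ 1`, the group of
all homeomorphisms homotopic to the identity (for `n ≥ 2` this is the question). -/
theorem result :
    (∀ (X : Type) [TopologicalSpace X] [CompactSpace X] [TopologicalSpace.MetrizableSpace X],
      HasEuclideanPiece X → ∀ G : Set C(X, X), Admissible G → MeagrePlusHaarNull G) ∧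
    (∀ (X : Type) [TopologicalSpace X] [Nonempty X] (n : ℕ)
      [ChartedSpace (EuclideanSpace ℝ (Fin n)) X], 0 < n → HasEuclideanPiece X) ∧
    (∀ n : ℕ, 0 < n → MeagrePlusHaarNull (SphereGroup n)) := by
  refine ⟨?_, ?_, ?_⟩
  · intro X _ _ _ h G hG
    exact general' h G hG
  · intro X _ _ n _ hn
    exact manifold hn
  · intro n hn
    have : Fact (Module.finrank ℝ (EuclideanSpace ℝ (Fin (n + 1))) = n + 1) := ⟨by simp⟩
    have : Nonempty (Metric.sphere (0 : EuclideanSpace ℝ (Fin (n + 1))) 1) :=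
      ⟨⟨EuclideanSpace.single 0 1, by simp⟩⟩
    refine general' (manifold hn) _ ⟨fun g hg => hg.1, ?_⟩
    rintro g ⟨γ, h1, h2, h3, h4⟩
    refine ⟨h3 ▸ h4 1, ContinuousMap.Homotopic.symm ⟨⟨⟨fun p => γ p.1 p.2, ?_⟩, ?_, ?_⟩⟩⟩
    · exact ContinuousMap.continuous_uncurry_of_continuous ⟨γ, h1⟩
    · intro x; simp [h2]
    · intro x; simp [h3]

end Pool.Agent.Results.MP_4045d2_lc.CompactManifolds
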